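import Pool.Agent.helper60.DB.SpecF

set_option autoImplicit false

namespace Pool.Agent.helper60.DB

open Polynomial Finset Pool.Agent.helper60.DK

theorem NP_main (hIZ : IZ_stmt) (hYE : YE_stmt) (hTT : TT_stmt) (hNH : NH_stmt)
    (R k : Type) [CommRing R] [IsDomain R] [CharZero R] [Field k] (p : ℕ) [hp : Fact p.Prime]
    [CharP k p] (q : R →+* k) (hq : Loc p q) (h7 : 7 ≤ p) (h11 : p ≠ 11) (f v x : R) (a b : ℤ)
    (hf : f ^ 2 = f + 1) (hv : v ^ 2 = -3) (hqf : q f ^ p = q f) (hx : 16 * x = -1)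
    (hab : (p : ℤ) = a ^ 2 + 15 * b ^ 2) (h0 : q (a + b * ((2 * f - 1) * v)) = 0) :
    ∃ z : R, aeval x (DA.St p)
      = (legendreSym p 48 : ℤ) * (4 * (a : R) ^ 2 - 2 * p) + (p : R) ^ 2 * z := by
  obtain ⟨hz1, -⟩ := hIZ R k p q hq
  have hpr : p.Prime := hp.out
  have hun : ∀ n : ℕ, 0 < n → n < 7 → IsUnit ((n : ℕ) : R) := by
    intro n hn hn7
    apply hq.unit
    intro h
    have h1 : q ((n : ℤ) : R) = 0 := by
      rw [Int.cast_natCast]
      exact h
    rw [hz1] at h1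
    have h2 := Int.natCast_dvd_natCast.mp h1
    have h3 := Nat.le_of_dvd hn h2
    omega
  have u2 : IsUnit (2 : R) := by simpa using hun 2 (by norm_num) (by norm_num)
  have u3 : IsUnit (3 : R) := by simpa using hun 3 (by norm_num) (by norm_num)
  have u5 : IsUnit (5 : R) := by simpa using hun 5 (by norm_num) (by norm_num)
  have u16 : IsUnit (16 : R) := by
    have h := u2.pow 4
    norm_num at h
    exact h
  have u48 : IsUnit (48 : R) := by
    have h := u16.mul u3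
    norm_num at h
    exact h
  have u4 : IsUnit (4 : R) := by
    have h := u2.pow 2
    norm_num at h
    exact h
  obtain ⟨i5, hi5⟩ := u5.exists_right_inv
  have h50 : (5 : R) ≠ 0 := by norm_num
  set s : R := 2 * (2 * f - 1) * i5 with hs
  have h5s : 5 * s = 4 * f - 2 := by
    rw [hs]
    linear_combination 2 * (2 * f - 1) * hi5
  have h5s2 : 5 * s ^ 2 = 4 := by
    refine mul_left_cancel₀ h50 ?_
    have h1 : 5 * (5 * s ^ 2) = (5 * s) ^ 2 := by ring
    rw [h1, h5s]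
    linear_combination 16 * hf
  have hxs : x * (4 - s ^ 2) = s ^ 2 - 1 := by
    have h80 : (80 : R) ≠ 0 := by norm_num
    refine mul_left_cancel₀ h80 ?_
    linear_combination 5 * (4 - s ^ 2) * hx - 15 * h5s2
  have u4s : IsUnit (4 - s ^ 2) := by
    have h1 : 5 * (4 - s ^ 2) = 16 := by linear_combination -h5s2
    have h2 : IsUnit (5 * (4 - s ^ 2)) := by
      rw [h1]
      exact u16
    exact isUnit_of_mul_isUnit_right h2
  have h625 : (625 : R) ≠ 0 := by norm_num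
  have hA1 : ((12 - 3 * f) ^ 2 - 4 * 48) * ((s + 2) * (s - 2) ^ 3)
      = -16 * 48 * ((s - 1) * (s + 1) ^ 3) := by
    refine mul_left_cancel₀ h625 ?_
    have e1 : 625 * (((12 - 3 * f) ^ 2 - 4 * 48) * ((s + 2) * (s - 2) ^ 3))
        = ((12 - 3 * f) ^ 2 - 192) * ((5 * s + 10) * (5 * s - 10) ^ 3) := by ring
    have e2 : 625 * (-16 * 48 * ((s - 1) * (s + 1) ^ 3))
        = -768 * ((5 * s - 5) * (5 * s + 5) ^ 3) := by ring
    rw [e1, e2, h5s]
    linear_combination (2304 * f ^ 4 - 32256 * f ^ 3 + 304128 * f ^ 2 + 352512 * f - 518400) * hf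
  have hA2 : ((12 - 3 * (1 - f)) ^ 2 - 4 * 48) * ((-s + 2) * (-s - 2) ^ 3)
      = -16 * 48 * ((-s - 1) * (-s + 1) ^ 3) := by
    refine mul_left_cancel₀ h625 ?_
    have e1 : 625 * (((12 - 3 * (1 - f)) ^ 2 - 4 * 48) * ((-s + 2) * (-s - 2) ^ 3))
        = ((12 - 3 * (1 - f)) ^ 2 - 192) * ((10 - 5 * s) * (-(5 * s) - 10) ^ 3) := by ring
    have e2 : 625 * (-16 * 48 * ((-s - 1) * (-s + 1) ^ 3))
        = -768 * ((-(5 * s) - 5) * (5 - 5 * s) ^ 3) := by ring
    rw [e1, e2, h5s]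
    linear_combination (2304 * f ^ 4 + 23040 * f ^ 3 + 221184 * f ^ 2 - 873216 * f + 108288) * hf
  obtain ⟨y1, w1, hy1, hw1, -⟩ := hYE R u2 (12 - 3 * f) 48
  obtain ⟨y2, w2, hy2, hw2, -⟩ := hYE R u2 (12 - 3 * (1 - f)) 48
  have h5p : 5 ≤ p := by omega
  have hm : p = 2 * hh p + 1 := (two_hh h5p).symm
  have hf' : (1 - f) ^ 2 = (1 - f) + 1 := by linear_combination hf
  have hv' : (-v) ^ 2 = -3 := by linear_combination hv
  have hqf' : q (1 - f) ^ p = q (1 - f) := by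
    rw [map_sub, map_one, sub_pow_char, one_pow, hqf]
  have h0' : q (a + b * ((2 * (1 - f) - 1) * (-v))) = 0 := by
    have e : (a : R) + b * ((2 * (1 - f) - 1) * (-v)) = a + b * ((2 * f - 1) * v) := by ring
    rw [e]
    exact h0
  obtain ⟨z1, hz1'⟩ := hNH R k p (hh p) q hq h7 h11 hm f v a b y1 w1 hf hv hqf hy1 hw1 hab h0
  obtain ⟨z2, hz2'⟩ := hNH R k p (hh p) q hq h7 h11 hm (1 - f) (-v) a b y2 w2 hf' hv' hqf' hy2 hw2
    hab h0'
  obtain ⟨z3, hz3⟩ := hTT p h5p R s x (12 - 3 * f) (12 - 3 * (1 - f)) 48 y1 w1 y2 w2 hxs u4s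
    (by norm_num) hA1 hA2 hy1 hw1 hy2 hw2
  obtain ⟨c, hc⟩ := (hq.ker _).mp h0
  obtain ⟨j, hj⟩ := (u4.mul (u48.pow (hh p))).exists_right_inv
  have habR : (p : R) = (a : R) ^ 2 + 15 * (b : R) ^ 2 := by
    have h := congrArg (fun n : ℤ => (n : R)) hab
    push_cast at h
    exact h
  have hb2 : ((2 * f - 1) * v) ^ 2 = -15 := by
    rw [mul_pow, hv]
    linear_combination (-12) * hf
  have hsq : ((a : R) - b * ((2 * f - 1) * v)) ^ 2
      = 4 * (a : R) ^ 2 - 2 * p - (p : R) ^ 2 * c ^ 2 := by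
    have e1 : (p : R) ^ 2 * c ^ 2 = ((a : R) + b * ((2 * f - 1) * v)) ^ 2 := by
      rw [hc]
      ring
    rw [e1, habR]
    linear_combination 2 * (b : R) ^ 2 * hb2
  refine ⟨j * z3 + j * ((2 + s) * z1 + (2 - s) * z2) - (legendreSym p 48 : ℤ) * c ^ 2, ?_⟩
  rw [hz1', hz2'] at hz3
  have e2 : ((a : R) - b * ((2 * (1 - f) - 1) * (-v))) ^ 2 = ((a : R) - b * ((2 * f - 1) * v)) ^ 2 := by
    ring
  rw [e2, hsq] at hz3
  linear_combination j * hz3 + (- aeval x (DA.St p)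
    + (legendreSym p 48 : ℤ) * (4 * (a : R) ^ 2 - 2 * p - (p : R) ^ 2 * c ^ 2)) * hj

theorem NP (hIZ : IZ_stmt) (hYE : YE_stmt) (hTT : TT_stmt) (hNH : NH_stmt) : NP_stmt := by
  intro R k _ _ _ _ p hp _ q hq h7 h11 f v x a b hf hv hqf hx hab
  have habR : (p : R) = (a : R) ^ 2 + 15 * (b : R) ^ 2 := by
    have h := congrArg (fun n : ℤ => (n : R)) hab
    push_cast at h
    exact h
  have hb2 : ((2 * f - 1) * v) ^ 2 = -15 := by
    rw [mul_pow, hv]
    linear_combination (-12) * hf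
  have hprod : ((a : R) + b * ((2 * f - 1) * v)) * ((a : R) - b * ((2 * f - 1) * v)) = p := by
    rw [habR]
    linear_combination (-(b : R) ^ 2) * hb2
  have hq0 : q (p : R) = 0 := by
    rw [hq.ker]
  have h1 : q ((a : R) + b * ((2 * f - 1) * v)) * q ((a : R) - b * ((2 * f - 1) * v)) = 0 := by
    rw [← map_mul, hprod, hq0]
  rcases mul_eq_zero.mp h1 with h | h
  · exact NP_main hIZ hYE hTT hNH R k p q hq h7 h11 f v x a b hf hv hqf hx hab h
  · refine NP_main hIZ hYE hTT hNH R k p q hq h7 h11 f v x a (-b) hf hv hqf hx ?_ ?_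
    · rw [hab]
      ring
    · have e : (a : R) + ((-b : ℤ) : R) * ((2 * f - 1) * v) = (a : R) - b * ((2 * f - 1) * v) := by
        push_cast
        ring
      rw [e]
      exact h

end Pool.Agent.helper60.DB
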