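import Pool.Agent.helper60.DB.SpecM

set_option autoImplicit false

namespace Pool.Agent.helper60.DB

open Polynomial

theorem O2_ne {K : Type} [Field K] {f : PowerSeries K} (h : PowerSeries.constantCoeff f = 1) :
    f ≠ 0 := by
  intro h0
  rw [h0, map_zero] at h
  exact zero_ne_one h

theorem O2 (hRR : RR_stmt) (hM2 : M2_stmt) : O2_stmt := by
  intro K _ _ A B A' B' A'' B'' l y hy h1 h2 α g u e d hml hty hht
  obtain ⟨hP, hC, hX, hop, hdiv⟩ := hRR K
  obtain ⟨g', u', hml', hug, huu⟩ := hM2 K A' B' A'' B'' l α y g u h1 h2 hml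
  have hu0 : u ≠ 0 := O2_ne hml.cu
  have hy0 : y ≠ 0 := O2_ne hy.one
  have hmul : ∀ f h : PowerSeries K, Rt f → Rt h → Rt (f * h) := fun f h a b => (hop f h a b).2.1
  have hadd : ∀ f h : PowerSeries K, Rt f → Rt h → Rt (f + h) := fun f h a b => (hop f h a b).1
  have hsub : ∀ f h : PowerSeries K, Rt f → Rt h → Rt (f - h) := fun f h a b => (hop f h a b).2.2.1
  have h1r : Rt (1 : PowerSeries K) := by
    have := hC 1
    rwa [map_one] at this
  obtain ⟨N, D, hD, hN1, hD1, hDN⟩ := hht
  have hψ : Rt (PowerSeries.X * g ^ 2) := ⟨N, D, hD, hDN⟩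
  have hψ2 : Rt ((PowerSeries.X * g ^ 2) ^ 2) := by
    rw [pow_two]
    exact hmul _ _ hψ hψ
  have hy2 : Rt (y ^ 2) := by
    rw [hy.sq]
    refine hadd _ _ (hadd _ _ h1r (hmul _ _ (hC A) hX)) (hmul _ _ (hC B) ?_)
    rw [pow_two]
    exact hmul _ _ hX hX
  have hu2 : Rt (u ^ 2) := by
    rw [hml.cur]
    exact hadd _ _ (hadd _ _ h1r (hmul _ _ (hC A') hψ)) (hmul _ _ (hC B') hψ2)
  refine ⟨g', u', hml', ⟨?_, ?_⟩, ?_⟩
  · intro ho
    exfalso
    rw [zero_mul] at ho
    exact (Int.not_even_iff_odd.mpr ho) ⟨0, by norm_num⟩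
  · intro _
    constructor
    · rcases Int.even_or_odd e with he | he
      · obtain ⟨ha, hb⟩ := hty.2 he
        refine hdiv u (y * g') (PowerSeries.C l * (y * g)) hb (hmul _ _ (hC l) ha) hu0 ?_
        linear_combination y * hug
      · obtain ⟨ha, hb⟩ := hty.1 he
        refine hdiv (y * u) (y * g') (y ^ 2 * (PowerSeries.C l * g)) hb
          (hmul _ _ hy2 (hmul _ _ (hC l) ha)) (mul_ne_zero hy0 hu0) ?_
        linear_combination y ^ 2 * hug
    · refine hdiv (u ^ 2) u' (1 - PowerSeries.C B' * (PowerSeries.X * g ^ 2) ^ 2) hu2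
        (hsub _ _ h1r (hmul _ _ (hC B') hψ2)) (pow_ne_zero 2 hu0) huu
  · have hM : ((D ^ 2 + C A' * (N * D) + C B' * N ^ 2 : K[X]) : PowerSeries K)
        = (D : PowerSeries K) ^ 2 * u ^ 2 := by
      rw [hml.cur]
      push_cast
      rw [← hDN]
      ring
    have hD0 : (D : PowerSeries K) ≠ 0 := by
      intro h0
      exact hD (Polynomial.coe_eq_zero_iff.mp h0)
    refine ⟨C (l ^ 2) * (N * D), D ^ 2 + C A' * (N * D) + C B' * N ^ 2, ?_, ?_, ?_, ?_⟩
    · intro h0
      rw [h0, Polynomial.coe_zero] at hM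
      exact mul_ne_zero (pow_ne_zero 2 hD0) (pow_ne_zero 2 hu0) hM.symm
    · refine (Polynomial.natDegree_C_mul_le _ _).trans ?_
      refine (Polynomial.natDegree_mul_le).trans ?_
      omega
    · have e1 : (D ^ 2).natDegree ≤ 2 * d := by
        refine (Polynomial.natDegree_pow_le).trans ?_
        omega
      have e2 : (C A' * (N * D)).natDegree ≤ 2 * d := by
        refine (Polynomial.natDegree_C_mul_le _ _).trans ?_
        refine (Polynomial.natDegree_mul_le).trans ?_
        omega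
      have e3 : (C B' * N ^ 2).natDegree ≤ 2 * d := by
        refine (Polynomial.natDegree_C_mul_le _ _).trans ?_
        refine (Polynomial.natDegree_pow_le).trans ?_
        omega
      exact Polynomial.natDegree_add_le_of_degree_le (Polynomial.natDegree_add_le_of_degree_le e1 e2) e3
    · rw [hM]
      push_cast
      rw [← hDN, map_pow]
      linear_combination (D : PowerSeries K) ^ 2 * PowerSeries.X * (u * g' + PowerSeries.C l * g) * hug

end Pool.Agent.helper60.DB
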