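import Pool.Agent.helper60.DB.SpecC

set_option autoImplicit false

namespace Pool.Agent.helper60.DB

open Polynomial Finset

theorem PR_div {R k : Type} [CommRing R] [IsDomain R] [CharZero R] [Field k] (p : ℕ)
    [hp : Fact p.Prime] (q : R →+* k) (hq : Loc p q) (i : ℕ) :
    ∀ (n : ℕ) (c : R) (D : R[X]), D.coeff i = (p : R) ^ n * c → q c ≠ 0 →
      ∃ (j : ℕ) (D' : R[X]), D = C ((p : R) ^ j) * D' ∧ D'.map q ≠ 0 := by
  intro n
  induction n with
  | zero =>
    intro c D hD hc
    refine ⟨0, D, by simp, ?_⟩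
    intro h0
    apply hc
    have h1 : (D.map q).coeff i = 0 := by rw [h0, coeff_zero]
    rw [coeff_map, hD, pow_zero, one_mul] at h1
    exact h1
  | succ n ih =>
    intro c D hD hc
    by_cases h0 : D.map q = 0
    · have hdiv : C (p : R) ∣ D := by
        rw [Polynomial.C_dvd_iff_dvd_coeff]
        intro m
        rw [← hq.ker, ← coeff_map, h0, coeff_zero]
      obtain ⟨D1, hD1⟩ := hdiv
      have hp0 : (p : R) ≠ 0 := by
        exact_mod_cast hp.out.ne_zero
      have h1 : D1.coeff i = (p : R) ^ n * c := by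
        have h2 : (p : R) * D1.coeff i = (p : R) * ((p : R) ^ n * c) := by
          rw [← coeff_C_mul, ← hD1, hD]
          ring
        exact mul_left_cancel₀ hp0 h2
      obtain ⟨j, D', hD', hne⟩ := ih c D1 h1 hc
      refine ⟨j + 1, D', ?_, hne⟩
      rw [hD1, hD', ← mul_assoc, ← C_mul]
      congr 2
      ring
    · exact ⟨0, D, by simp, h0⟩

theorem PR : PR_stmt := by
  intro R k _ _ _ _ p hp q hq D hD
  obtain ⟨b, hbM, hb⟩ := IsLocalization.integerNormalization_spec (nonZeroDivisors R) D
  set D0 : R[X] := IsLocalization.integerNormalization (nonZeroDivisors R) D with hD0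
  have hb0 : (b : R) ≠ 0 := nonZeroDivisors.ne_zero hbM
  have hba : algebraMap R (FractionRing R) (b : R) ≠ 0 := by
    intro h
    exact hb0 ((IsFractionRing.injective R (FractionRing R)) (by rw [h, map_zero]))
  have hb1 : D0.map (algebraMap R (FractionRing R)) =
      C (algebraMap R (FractionRing R) (b : R)) * D := by
    rw [hb]
    ext m
    rw [coeff_C_mul, coeff_smul, Algebra.smul_def]
  have hD00 : D0 ≠ 0 := by
    intro h
    rw [h, Polynomial.map_zero] at hb1
    exact mul_ne_zero (C_ne_zero.mpr hba) hD hb1.symm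
  obtain ⟨i, hi⟩ : ∃ i, D0.coeff i ≠ 0 := by
    by_contra hcon
    apply hD00
    ext m
    rw [coeff_zero]
    by_contra hm
    exact hcon ⟨m, hm⟩
  obtain ⟨n, c, hc, hqc⟩ := hq.val (D0.coeff i) hi
  obtain ⟨j, D', hD', hne⟩ := PR_div p q hq i n c D0 hc hqc
  have hp0 : (p : R) ≠ 0 := by
    exact_mod_cast hp.out.ne_zero
  have hpj : algebraMap R (FractionRing R) ((p : R) ^ j) ≠ 0 := by
    intro h
    exact pow_ne_zero j hp0 ((IsFractionRing.injective R (FractionRing R)) (by rw [h, map_zero]))
  refine ⟨algebraMap R (FractionRing R) (b : R) / algebraMap R (FractionRing R) ((p : R) ^ j), D',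
    div_ne_zero hba hpj, ?_, hne⟩
  have h1 : C (algebraMap R (FractionRing R) ((p : R) ^ j)) * D'.map (algebraMap R (FractionRing R))
      = C (algebraMap R (FractionRing R) (b : R)) * D := by
    rw [← hb1, hD', Polynomial.map_mul, Polynomial.map_C]
  refine mul_left_cancel₀ (C_ne_zero.mpr hpj) ?_
  rw [h1, ← mul_assoc, ← C_mul, mul_div_cancel₀ _ hpj]

end Pool.Agent.helper60.DB
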